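import Mathlib
import Pool.Agent.Y875.UE.Stm

set_option autoImplicit false

/-!
Universal Pepin test, part STK: valuations of the Jacobi sums above `q` (helper448).
-/

namespace Pool.Agent.Y448.UE

open Finset Pool.Agent.Y875.UE

section cong

variable {K : Type} [NormedField K] [IsUltrametricDist K]

theorem cg_mul {x y x' y' : K} (hx : ‖x‖ ≤ 1) (hy' : ‖y'‖ ≤ 1) (h1 : ‖x - x'‖ < 1)
    (h2 : ‖y - y'‖ < 1) : ‖x * y - x' * y'‖ < 1 := by
  have e : x * y - x' * y' = x * (y - y') + (x - x') * y' := by ring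
  rw [e]
  refine (IsUltrametricDist.norm_add_le_max _ _).trans_lt (max_lt ?_ ?_)
  · rw [norm_mul]
    exact mul_lt_one_of_nonneg_of_lt_one_right hx (norm_nonneg _) h2
  · rw [norm_mul]
    exact mul_lt_one_of_nonneg_of_lt_one_left (norm_nonneg _) h1 hy'

theorem cg_pow {x x' : K} (hx : ‖x‖ ≤ 1) (hx' : ‖x'‖ ≤ 1) (h : ‖x - x'‖ < 1) (n : ℕ) :
    ‖x ^ n - x' ^ n‖ < 1 := by
  induction n with
  | zero => simp
  | succ n ih =>
    rw [pow_succ, pow_succ]
    refine cg_mul ?_ hx' ih h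
    rw [norm_pow]
    exact pow_le_one₀ (norm_nonneg _) hx

theorem cg_trans {x y z : K} (h1 : ‖x - y‖ < 1) (h2 : ‖y - z‖ < 1) : ‖x - z‖ < 1 := by
  have e : x - z = (x - y) + (y - z) := by ring
  rw [e]
  exact (IsUltrametricDist.norm_add_le_max _ _).trans_lt (max_lt h1 h2)

omit [IsUltrametricDist K] in
theorem cg_symm {x y : K} (h : ‖x - y‖ < 1) : ‖y - x‖ < 1 := by rwa [norm_sub_rev]

theorem cg_sum {ι : Type} (s : Finset ι) (f g : ι → K) (h : ∀ i ∈ s, ‖f i - g i‖ < 1) :
    ‖∑ i ∈ s, f i - ∑ i ∈ s, g i‖ < 1 := by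
  classical
  induction s using Finset.induction_on with
  | empty => simp
  | insert a s ha ih =>
    rw [sum_insert ha, sum_insert ha]
    have e : f a + ∑ i ∈ s, f i - (g a + ∑ i ∈ s, g i) =
        (f a - g a) + (∑ i ∈ s, f i - ∑ i ∈ s, g i) := by ring
    rw [e]
    exact (IsUltrametricDist.norm_add_le_max _ _).trans_lt
      (max_lt (h a (mem_insert_self a s)) (ih fun i hi => h i (mem_insert_of_mem hi)))

theorem int_le (n : ℤ) : ‖(n : K)‖ ≤ 1 := IsUltrametricDist.norm_intCast_le_one K n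

theorem nat_le (n : ℕ) : ‖(n : K)‖ ≤ 1 := IsUltrametricDist.norm_natCast_le_one K n

variable {q : ℕ} [hq : Fact q.Prime] (hK : ‖(q : K)‖ < 1)
include hK

theorem int_lt_iff (n : ℤ) : ‖(n : K)‖ < 1 ↔ (n : ZMod q) = 0 := by
  rw [ZMod.intCast_zmod_eq_zero_iff_dvd]
  constructor
  · intro h
    by_contra hc
    have hcop : IsCoprime n (q : ℤ) := by
      rw [isCoprime_comm]
      exact (Prime.coprime_iff_not_dvd (Nat.prime_iff_prime_int.1 hq.out)).2 hc
    obtain ⟨a, b, hab⟩ := hcop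
    have h1 : (1 : K) = (a : K) * n + (b : K) * q := by
      have := congrArg (Int.cast : ℤ → K) hab
      push_cast at this
      exact this.symm
    have h2 : ‖(1 : K)‖ < 1 := by
      rw [h1]
      refine (IsUltrametricDist.norm_add_le_max _ _).trans_lt (max_lt ?_ ?_)
      · rw [norm_mul]
        exact mul_lt_one_of_nonneg_of_lt_one_right (int_le a) (norm_nonneg _) h
      · rw [norm_mul]
        exact mul_lt_one_of_nonneg_of_lt_one_right (int_le b) (norm_nonneg _) hK
    rw [norm_one] at h2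
    exact lt_irrefl _ h2
  · rintro ⟨m, rfl⟩
    push_cast
    rw [norm_mul]
    exact mul_lt_one_of_nonneg_of_lt_one_left (norm_nonneg _) hK (int_le m)

theorem cg_int {m n : ℤ} (h : (m : ZMod q) = (n : ZMod q)) : ‖(m : K) - (n : K)‖ < 1 := by
  have h1 := (int_lt_iff hK (m - n)).2 (by push_cast; rw [h, sub_self])
  push_cast at h1
  exact h1

theorem norm_eq_one_of {x : K} {n : ℤ} (h : ‖x - n‖ < 1) (hn : (n : ZMod q) ≠ 0) : ‖x‖ = 1 := by
  have h1 : ‖(n : K)‖ = 1 := by
    apply le_antisymm (int_le n)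
    by_contra hc
    push Not at hc
    exact hn ((int_lt_iff hK n).1 hc)
  apply le_antisymm
  · have e : x = (x - n) + n := by ring
    rw [e]
    exact (IsUltrametricDist.norm_add_le_max _ _).trans (max_le h.le h1.le)
  · by_contra hc
    push Not at hc
    have e : (n : K) = x - (x - n) := by ring
    have h2 : ‖(n : K)‖ < 1 := by
      rw [e, sub_eq_add_neg]
      refine (IsUltrametricDist.norm_add_le_max _ _).trans_lt (max_lt hc ?_)
      rwa [norm_neg]
    linarith

end cong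

/-- the sum over the prime field -/
theorem sum_ne {p : ℕ} [hp : Fact p.Prime] {A B : ℕ} (hA0 : 0 < A) (hA : A < p - 1)
    (hB : B < p - 1) (hAB : p - 1 ≤ A + B) : ∑ s : ZMod p, s ^ A * (1 - s) ^ B ≠ 0 := by
  have h1 : ∀ u : ZMod p, u ^ A * (1 - u) ^ B =
      ∑ k ∈ Finset.range (B + 1), ((-1) ^ k * (B.choose k : ZMod p)) * u ^ (A + k) := by
    intro u
    have : (1 - u) ^ B = (-u + 1) ^ B := by ring
    rw [this, add_pow, Finset.mul_sum]
    refine Finset.sum_congr rfl fun k _ => ?_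
    rw [neg_pow, pow_add]
    ring
  have h2 : ∀ m : ℕ, 0 < m → m < 2 * (p - 1) →
      ∑ u : ZMod p, u ^ m = if m = p - 1 then -1 else 0 := by
    intro m hm0 hm
    have h3 : ∑ u : ZMod p, u ^ m = ∑ u : (ZMod p)ˣ, ((u : ZMod p) ^ m) := by
      have h4 : ∑ u : ZMod p, u ^ m = ∑ u ∈ (univ : Finset (ZMod p)).erase 0, u ^ m := by
        rw [← Finset.sum_erase_add univ _ (mem_univ (0 : ZMod p)), zero_pow hm0.ne', add_zero]
      rw [h4]
      symm
      refine Finset.sum_bij (fun (u : (ZMod p)ˣ) _ => (u : ZMod p)) ?_ ?_ ?_ ?_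
      · intro u _
        exact mem_erase.2 ⟨u.ne_zero, mem_univ _⟩
      · intro u _ v _ h
        exact Units.ext h
      · intro v hv
        exact ⟨Units.mk0 v (ne_of_mem_erase hv), mem_univ _, rfl⟩
      · intro u _
        rfl
    have h5 := FiniteField.sum_pow_units (ZMod p) m
    rw [ZMod.card] at h5
    rw [h3]
    rw [h5]
    by_cases hmp : m = p - 1
    · rw [if_pos hmp, if_pos (by rw [hmp])]
    · rw [if_neg hmp, if_neg]
      rintro ⟨t, rfl⟩
      have ht : t < 2 := by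
        by_contra hc
        push Not at hc
        have : (p - 1) * 2 ≤ (p - 1) * t := Nat.mul_le_mul_left _ hc
        omega
      interval_cases t
      · omega
      · omega
  rw [Finset.sum_congr rfl fun u _ => h1 u, Finset.sum_comm]
  have h6 : ∑ k ∈ Finset.range (B + 1), ∑ u : ZMod p, ((-1) ^ k * (B.choose k : ZMod p)) * u ^ (A + k) =
      ((-1) ^ (p - 1 - A) * (B.choose (p - 1 - A) : ZMod p)) * (-1) := by
    rw [Finset.sum_eq_single (p - 1 - A)]
    · rw [← Finset.mul_sum, h2 _ (by omega) (by omega), if_pos (by omega)]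
    · intro k hk hkA
      have := mem_range.1 hk
      rw [← Finset.mul_sum, h2 _ (by omega) (by omega), if_neg (by omega), mul_zero]
    · intro h
      exact absurd (mem_range.2 (by omega)) h
  rw [h6]
  have h7 : ((B.choose (p - 1 - A) : ℕ) : ZMod p) ≠ 0 := by
    rw [Ne, ZMod.natCast_eq_zero_iff]
    intro h
    have h8 : p ∣ B.factorial := by
      rw [← Nat.choose_mul_factorial_mul_factorial (show p - 1 - A ≤ B by omega)]
      exact (h.mul_right _).mul_right _
    have := (hp.out.dvd_factorial).1 h8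
    omega
  have h9 : ((-1 : ZMod p)) ^ (p - 1 - A) ≠ 0 := pow_ne_zero _ (neg_ne_zero.2 one_ne_zero)
  exact mul_ne_zero (mul_ne_zero h9 h7) (neg_ne_zero.2 one_ne_zero)

/-- reduction of the character -/
theorem chi_red {q e u : ℕ} [hq : Fact q.Prime] (hu : 0 < u) (hqe : q = 2 ^ e * u + 1)
    (χ : MulChar (ZMod q) QB) (hχ : orderOf χ = u) (K : Type) [NormedField K]
    [IsUltrametricDist K] (σ : QB →+* K) (hK : ‖(q : K)‖ < 1) :
    ∃ j : ℕ, Nat.Coprime j u ∧ ∀ y : (ZMod q)ˣ,
      ‖σ (χ y) - (((y : ZMod q).val : ℕ) : K) ^ (j * 2 ^ e)‖ < 1 := by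
  obtain ⟨g, hg⟩ := IsCyclic.exists_generator (α := (ZMod q)ˣ)
  have hg1 : orderOf g = 2 ^ e * u := by
    rw [orderOf_eq_card_of_forall_mem_zpowers hg, Nat.card_eq_fintype_card, ZMod.card_units]
    omega
  set w : K := σ (χ g) with hw
  have hχu : (χ (g : ZMod q)) ^ u = 1 := by
    have h1 : (χ ^ u) (g : ZMod q) = 1 := by
      rw [← hχ, pow_orderOf_eq_one, MulChar.one_apply_coe]
    rwa [MulChar.pow_apply_coe] at h1
  have hprim0 : IsPrimitiveRoot (χ (g : ZMod q)) u := by
    refine ⟨hχu, fun l hl => ?_⟩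
    rw [← hχ]
    apply orderOf_dvd_of_pow_eq_one
    rw [MulChar.eq_iff hg, MulChar.pow_apply_coe, hl, MulChar.one_apply_coe]
  have hprim : IsPrimitiveRoot w u := hprim0.map_of_injective σ.injective
  have hw1 : ‖w‖ ≤ 1 := ((pow_eq_one_iff_of_nonneg (norm_nonneg w) hu.ne').1
    (by rw [← norm_pow, hprim.pow_eq_one, norm_one])).le
  set γ : ℕ := (g : ZMod q).val with hγ
  have hγc : ((γ : ℕ) : ZMod q) = (g : ZMod q) := ZMod.natCast_zmod_val _
  set G0 : K := (γ : K) ^ (2 ^ e) with hG0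
  have hG1 : ‖G0‖ ≤ 1 := by
    rw [hG0, norm_pow]
    exact pow_le_one₀ (norm_nonneg _) (nat_le γ)
  -- powers of the generator
  have hpw : ∀ l : ℕ, ‖(γ : K) ^ l - 1‖ < 1 ↔ 2 ^ e * u ∣ l := by
    intro l
    have h1 : (γ : K) ^ l - 1 = (((γ : ℤ) ^ l - 1 : ℤ) : K) := by push_cast; rfl
    rw [h1, int_lt_iff hK, ← hg1, orderOf_dvd_iff_pow_eq_one]
    push_cast
    rw [hγc, sub_eq_zero, ← Units.val_pow_eq_pow_val, ← Units.val_one, Units.ext_iff]
  -- a root of unity congruent to `G0`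
  have hprod : ‖G0 ^ u - 1 ^ u‖ < 1 := by
    rw [hG0, ← pow_mul, one_pow]
    exact (hpw _).2 dvd_rfl
  have hex : ∃ i : ℕ, ‖G0 - w ^ i‖ < 1 := by
    by_contra hc
    push Not at hc
    rw [hprim.pow_sub_pow_eq_prod_sub_mul _ _ hu] at hprod
    have h2 : ∀ ζ ∈ Polynomial.nthRootsFinset u (1 : K), 1 ≤ ‖G0 - ζ * 1‖ := by
      intro ζ hζ
      rw [Polynomial.mem_nthRootsFinset hu] at hζ
      have : NeZero u := ⟨hu.ne'⟩
      obtain ⟨i, -, rfl⟩ := hprim.eq_pow_of_pow_eq_one hζ
      rw [mul_one]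
      exact hc i
    rw [norm_prod] at hprod
    have h3 : (1 : ℝ) ≤ ∏ ζ ∈ Polynomial.nthRootsFinset u (1 : K), ‖G0 - ζ * 1‖ := by
      rw [← Finset.prod_const_one (s := Polynomial.nthRootsFinset u (1 : K))]
      exact Finset.prod_le_prod (fun _ _ => zero_le_one) h2
    linarith
  obtain ⟨i, hi⟩ := hex
  have hcop : Nat.Coprime i u := by
    by_contra hc
    set dd := Nat.gcd i u with hdd
    have hdd1 : dd ≠ 1 := hc
    have hdd0 : 0 < dd := Nat.gcd_pos_of_pos_right _ hu
    obtain ⟨u', hu'⟩ := Nat.gcd_dvd_right i u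
    obtain ⟨i', hi'⟩ := Nat.gcd_dvd_left i u
    rw [← hdd] at hu' hi'
    have h1 : (w ^ i) ^ u' = 1 := by
      rw [← pow_mul, hi', show dd * i' * u' = (dd * u') * i' by ring, ← hu', pow_mul,
        hprim.pow_eq_one, one_pow]
    have h2 := cg_pow hG1 (by rw [norm_pow]; exact pow_le_one₀ (norm_nonneg _) hw1) hi u'
    rw [h1, hG0, ← pow_mul, hpw] at h2
    have hu'0 : 0 < u' := by
      rcases Nat.eq_zero_or_pos u' with h | h
      · rw [h, mul_zero] at hu'; omega
      · exact h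
    have h3 := Nat.le_of_dvd (by positivity) h2
    have h4 : u ≤ u' := Nat.le_of_mul_le_mul_left h3 (by positivity)
    have h5 : dd * u' ≤ 1 * u' := by rw [one_mul, ← hu']; exact h4
    have h6 := Nat.le_of_mul_le_mul_right h5 hu'0
    omega
  obtain ⟨j, hj⟩ : ∃ j, i * j ≡ 1 [MOD u] := by
    rcases Nat.lt_or_ge 1 u with h | h
    · obtain ⟨j, hj⟩ := Nat.exists_mul_mod_eq_one_of_coprime hcop h
      exact ⟨j, by rw [Nat.ModEq, hj.2, Nat.mod_eq_of_lt h]⟩
    · have : u = 1 := by omega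
      subst this
      exact ⟨1, Nat.modEq_one⟩
  have hjc : Nat.Coprime j u := by
    have h1 : Nat.Coprime (i * j) u := by
      rw [Nat.Coprime, hj.gcd_eq, Nat.gcd_one_left]
    exact Nat.Coprime.coprime_mul_left h1
  refine ⟨j, hjc, fun y => ?_⟩
  have hwj : ‖w - G0 ^ j‖ < 1 := by
    have h1 : w = (w ^ i) ^ j := by
      rw [← pow_mul, pow_eq_pow_mod _ hprim.pow_eq_one, hj, ← pow_eq_pow_mod _ hprim.pow_eq_one,
        pow_one]
    rw [h1]
    exact cg_symm (cg_pow hG1 (by rw [norm_pow]; exact pow_le_one₀ (norm_nonneg _) hw1) hi j)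
  obtain ⟨n, hn⟩ := (mem_powers_iff_mem_zpowers.2 (hg y))
  simp only at hn
  have h1 : σ (χ y) = w ^ n := by
    rw [← hn, Units.val_pow_eq_pow_val, map_pow, map_pow]
  rw [h1]
  have h2 := cg_pow hw1 (by rw [norm_pow]; exact pow_le_one₀ (norm_nonneg _) hG1) hwj n
  refine cg_trans h2 ?_
  have h3 := cg_int hK (m := (γ : ℤ) ^ (2 ^ e * (j * n))) (n := ((y : ZMod q).val : ℤ) ^ (j * 2 ^ e))
    (by
      push_cast
      rw [hγc, ZMod.natCast_zmod_val, ← hn, Units.val_pow_eq_pow_val, ← pow_mul]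
      congr 1
      ring)
  push_cast at h3
  rw [hG0, ← pow_mul, ← pow_mul]
  exact h3

theorem eta_apply (q : ℕ) [Fact q.Prime] (y : ZMod q) :
    eta q QB y = ((quadraticChar (ZMod q) y : ℤ) : QB) := rfl

/-- STK -/
theorem t : S_STK := by
  intro q e u hq hu he hqe χ hχ K _ _ σ hK
  have hu0 : 0 < u := hu.pos
  have hK1 : ‖(q : K)‖ < 1 := by
    rw [hK]
    exact inv_lt_one_of_one_lt₀ (by exact_mod_cast hq.out.one_lt)
  obtain ⟨j, hj, hred⟩ := chi_red hu0 hqe χ hχ K σ hK1
  refine ⟨j, hj, ?_⟩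
  obtain ⟨e', rfl⟩ : ∃ e', e = e' + 1 := ⟨e - 1, by omega⟩
  have hPpos : 0 < 2 ^ e' := by positivity
  have hq2 : q = 2 * (2 ^ e' * u) + 1 := by rw [hqe, pow_succ]; ring
  have hring : ringChar (ZMod q) ≠ 2 := by
    rw [ZMod.ringChar_zmod_n]
    omega
  have hm1 : ∀ a, 1 ≤ a → a < u → 0 < (a * j) % u := by
    intro a ha hau
    rcases Nat.eq_zero_or_pos ((a * j) % u) with h | h
    · exfalso
      have h1 : u ∣ a := (hj.symm).dvd_of_dvd_mul_right (Nat.dvd_of_mod_eq_zero h)
      have := Nat.le_of_dvd ha h1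
      omega
    · exact h
  -- values of norm at most one
  have hval : ∀ (a : ℕ) (_ : 1 ≤ a) (y : ZMod q), ‖σ ((χ ^ a) y)‖ ≤ 1 ∧
      ‖σ ((χ ^ a) y) - ((y.val : ℕ) : K) ^ ((a * j) % u * 2 ^ (e' + 1))‖ < 1 ∨ u ≤ a := by
    intro a ha y
    by_cases hau : u ≤ a
    · exact Or.inr hau
    left
    push Not at hau
    have ha' := hm1 a ha hau
    by_cases hy : y = 0
    · subst hy
      have h1 : (χ ^ a) (0 : ZMod q) = 0 := MulChar.map_zero _
      rw [h1, map_zero, norm_zero, ZMod.val_zero, Nat.cast_zero, zero_pow (by positivity), sub_zero,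
        norm_zero]
      exact ⟨zero_le_one, zero_lt_one⟩
    · obtain ⟨y, rfl⟩ := (isUnit_iff_ne_zero.2 hy : IsUnit y)
      have hx1 : ‖σ (χ y)‖ ≤ 1 := by
        have h1 : (σ (χ y)) ^ u = 1 := by
          rw [← map_pow, ← MulChar.pow_apply_coe, ← hχ, pow_orderOf_eq_one, MulChar.one_apply_coe,
            map_one]
        exact ((pow_eq_one_iff_of_nonneg (norm_nonneg _) hu0.ne').1
          (by rw [← norm_pow, h1, norm_one])).le
      have hv1 : ‖(((y : ZMod q).val : ℕ) : K) ^ (j * 2 ^ (e' + 1))‖ ≤ 1 := by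
        rw [norm_pow]
        exact pow_le_one₀ (norm_nonneg _) (nat_le _)
      rw [MulChar.pow_apply_coe, map_pow]
      refine ⟨by rw [norm_pow]; exact pow_le_one₀ (norm_nonneg _) hx1, ?_⟩
      refine cg_trans (cg_pow hx1 hv1 (hred y) a) ?_
      have h3 := cg_int hK1 (m := ((y : ZMod q).val : ℤ) ^ (j * 2 ^ (e' + 1) * a))
        (n := ((y : ZMod q).val : ℤ) ^ ((a * j) % u * 2 ^ (e' + 1))) (by
          push_cast
          rw [ZMod.natCast_zmod_val]
          have h4 := Nat.mod_add_div (a * j) u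
          have h5 : j * 2 ^ (e' + 1) * a = (a * j) % u * 2 ^ (e' + 1) +
              (q - 1) * ((a * j) / u) := by
            have h6 : q - 1 = 2 ^ (e' + 1) * u := by omega
            rw [h6]
            calc j * 2 ^ (e' + 1) * a = (a * j) * 2 ^ (e' + 1) := by ring
              _ = ((a * j) % u + u * (a * j / u)) * 2 ^ (e' + 1) := by rw [h4]
              _ = _ := by ring
          rw [h5, pow_add, pow_mul _ (q - 1), ZMod.pow_card_sub_one_eq_one y.ne_zero, one_pow,
            mul_one])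
      push_cast at h3
      rw [← pow_mul]
      exact h3
  have heta : ∀ y : ZMod q, ‖σ (eta q QB y) - ((y.val : ℕ) : K) ^ (q / 2)‖ < 1 := by
    intro y
    rw [eta_apply, map_intCast]
    have h3 := cg_int hK1 (m := quadraticChar (ZMod q) y) (n := (y.val : ℤ) ^ (q / 2)) (by
      push_cast
      rw [ZMod.natCast_zmod_val, quadraticChar_eq_pow_of_char_ne_two' hring, ZMod.card])
    push_cast at h3
    exact h3
  -- the large case
  have hbig : ∀ a, 1 ≤ a → a < u → ¬ 2 * ((a * j) % u) < u →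
      ‖σ (jacobiSum (χ ^ a) (eta q QB))‖ = 1 := by
    intro a ha hau hlt
    set a' := (a * j) % u with ha'
    have ha'0 := hm1 a ha hau
    have ha'u : a' < u := Nat.mod_lt _ hu0
    have hP2 : 2 ^ (e' + 1) = 2 * 2 ^ e' := by rw [pow_succ]; ring
    have hq1 : q - 1 = 2 ^ (e' + 1) * u := by omega
    have hB : q / 2 = 2 ^ e' * u := by omega
    refine norm_eq_one_of hK1
      (n := ∑ s : ZMod q, (s.val : ℤ) ^ (a' * 2 ^ (e' + 1)) * ((1 - s).val : ℤ) ^ (q / 2)) ?_ ?_
    · unfold jacobiSum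
      rw [map_sum]
      push_cast
      refine cg_sum _ _ _ fun s _ => ?_
      rw [map_mul]
      have h1 := (hval a ha s).resolve_right (by omega)
      exact cg_mul h1.1 (by rw [norm_pow]; exact pow_le_one₀ (norm_nonneg _) (nat_le _)) h1.2
        (heta (1 - s))
    · push_cast
      simp only [ZMod.natCast_zmod_val]
      apply sum_ne
      · positivity
      · rw [hq1, mul_comm]
        exact Nat.mul_lt_mul_of_pos_left ha'u (by positivity)
      · rw [hq1, hB, hP2]
        have : 0 < 2 ^ e' * u := by positivity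
        nlinarith
      · rw [hq1, hB, hP2]
        have h2 : u ≤ 2 * a' := by omega
        have h3 : 2 ^ e' * u ≤ 2 ^ e' * (2 * a') := Nat.mul_le_mul_left _ h2
        nlinarith
  intro a ha hau
  by_cases hlt : 2 * ((a * j) % u) < u
  · rw [if_pos hlt]
    have hη2 : (eta q QB) ^ 2 = 1 := ((quadraticChar_isQuadratic (ZMod q)).comp _).sq_eq_one
    have hηi : (eta q QB)⁻¹ = eta q QB := ((quadraticChar_isQuadratic (ZMod q)).comp _).inv
    have hχa : χ ^ a ≠ 1 := by
      intro h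
      have h1 := orderOf_dvd_of_pow_eq_one h
      rw [hχ] at h1
      have := Nat.le_of_dvd ha h1
      omega
    have hη1 : eta q QB ≠ 1 := by
      unfold eta
      rw [Ne, MulChar.ringHomComp_eq_one_iff]
      · exact quadraticChar_ne_one hring
      · exact Int.cast_injective
    have hχη : χ ^ a * eta q QB ≠ 1 := by
      intro h
      have h1 : (χ ^ a * eta q QB) ^ 2 = 1 := by rw [h, one_pow]
      rw [mul_pow, hη2, mul_one, ← pow_mul] at h1
      have h2 := orderOf_dvd_of_pow_eq_one h1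
      rw [hχ] at h2
      have h3 : u ∣ a := (Nat.Coprime.dvd_of_dvd_mul_right
        (Nat.coprime_two_right.2 hu) h2)
      have := Nat.le_of_dvd ha h3
      omega
    have hinv : (χ ^ a)⁻¹ = χ ^ (u - a) := by
      rw [inv_eq_iff_mul_eq_one, ← pow_add, Nat.add_sub_cancel' hau.le, ← hχ, pow_orderOf_eq_one]
    have hcard := jacobiSum_mul_jacobiSum_inv (F := ZMod q) (F' := QB) (by
      rw [ZMod.ringChar_zmod_n, ringChar.eq QB 0]
      exact hq.out.pos.ne) hχa hη1 hχη
    rw [hinv, hηi, ZMod.card] at hcard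
    have hmod : ((u - a) * j) % u = u - (a * j) % u := by
      have ha'0 := hm1 a ha hau
      have h1 : ((u - a) * j + a * j) % u = 0 := by
        rw [← add_mul, Nat.sub_add_cancel hau.le, Nat.mul_mod_right]
      have h2 : (u - a) * j % u < u := Nat.mod_lt _ hu0
      have h3 : (a * j) % u < u := Nat.mod_lt _ hu0
      rw [Nat.add_mod] at h1
      have h4 := Nat.dvd_of_mod_eq_zero h1
      obtain ⟨c, hc⟩ := h4
      have hc1 : c < 2 := by
        by_contra hcon
        push Not at hcon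
        have : u * 2 ≤ u * c := Nat.mul_le_mul_left _ hcon
        omega
      interval_cases c <;> omega
    have h1 := hbig (u - a) (by omega) (by omega) (by rw [hmod]; omega)
    have h2 := congrArg (fun z => ‖σ z‖) hcard
    simp only [map_mul, norm_mul, map_natCast] at h2
    rw [h1, mul_one, hK] at h2
    exact h2
  · rw [if_neg hlt]
    exact hbig a ha hau hlt

end Pool.Agent.Y448.UE
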